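import Mathlib

/-!
# Degrees under extension of the base field
-/

open IntermediateField Polynomial

namespace LEH

theorem deg_embed {K K' F F' : Type*} [Field K] [CharZero K] [Field K'] [Field F] [Field F']
    [Algebra K K'] [Algebra K F] [Algebra K' F'] [Algebra K F'] [IsScalarTower K K' F']
    [Algebra.IsAlgebraic K F] (e : F →ₐ[K] F') (x y : F) (x' y' : F')
    (hx : x' ∈ IntermediateField.adjoin K' {e x, e y})
    (hy : y' ∈ IntermediateField.adjoin K' {e x, e y}) :
    Module.finrank K' (IntermediateField.adjoin K' {x', y'}) ≤
      Module.finrank K (IntermediateField.adjoin K {x, y}) := by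
  have hfd : FiniteDimensional K (IntermediateField.adjoin K {x, y}) := by
    apply IntermediateField.finiteDimensional_adjoin
    intro z _
    exact Algebra.IsIntegral.isIntegral z
  obtain ⟨α, hα⟩ := Field.exists_primitive_element K (IntermediateField.adjoin K {x, y})
  set a : F := (α : F) with ha
  have hadj : K⟮a⟯ = IntermediateField.adjoin K {x, y} := by
    have h1 := congrArg (IntermediateField.map (IntermediateField.adjoin K {x, y}).val) hα
    rw [IntermediateField.adjoin_map, Set.image_singleton] at h1
    rw [← AlgHom.fieldRange_eq_map, IntermediateField.fieldRange_val] at h1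
    exact h1
  have hmem : ∀ z ∈ IntermediateField.adjoin K {x, y}, e z ∈ IntermediateField.adjoin K' {e a} := by
    intro z hz
    rw [← hadj] at hz
    have h1 : e z ∈ IntermediateField.map e K⟮a⟯ := ⟨z, hz, rfl⟩
    rw [IntermediateField.adjoin_map, Set.image_singleton] at h1
    have h2 : K⟮e a⟯ ≤ (IntermediateField.adjoin K' {e a}).restrictScalars K := by
      rw [IntermediateField.adjoin_le_iff]
      intro w hw
      rw [Set.mem_singleton_iff] at hw
      rw [hw]
      exact IntermediateField.mem_adjoin_simple_self K' (e a)
    exact h2 h1
  have hxy : IntermediateField.adjoin K' {e x, e y} ≤ IntermediateField.adjoin K' {e a} := by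
    rw [IntermediateField.adjoin_le_iff]
    intro w hw
    rw [Set.mem_insert_iff, Set.mem_singleton_iff] at hw
    rcases hw with rfl | rfl
    · exact hmem x (IntermediateField.subset_adjoin K _ (by simp))
    · exact hmem y (IntermediateField.subset_adjoin K _ (by simp))
  have hle : IntermediateField.adjoin K' {x', y'} ≤ IntermediateField.adjoin K' {e a} := by
    rw [IntermediateField.adjoin_le_iff]
    intro w hw
    rw [Set.mem_insert_iff, Set.mem_singleton_iff] at hw
    rcases hw with rfl | rfl
    · exact hxy hx
    · exact hxy hy
  have hia : IsIntegral K a := Algebra.IsIntegral.isIntegral a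
  have hiea : IsIntegral K (e a) := hia.map e
  have hiea' : IsIntegral K' (e a) := hiea.tower_top
  haveI : FiniteDimensional K' (IntermediateField.adjoin K' {e a}) :=
    IntermediateField.adjoin.finiteDimensional hiea'
  calc Module.finrank K' (IntermediateField.adjoin K' {x', y'})
      ≤ Module.finrank K' (IntermediateField.adjoin K' {e a}) :=
        LinearMap.finrank_le_finrank_of_injective
          (f := (IntermediateField.inclusion hle).toLinearMap)
          (IntermediateField.inclusion_injective hle)
    _ = (minpoly K' (e a)).natDegree := IntermediateField.adjoin.finrank hiea'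
    _ ≤ (minpoly K (e a)).natDegree := by
        have h1 := minpoly.dvd_map_of_isScalarTower K K' (e a)
        have h2 := Polynomial.natDegree_le_of_dvd h1
          (Polynomial.map_ne_zero (minpoly.ne_zero hiea))
        rwa [Polynomial.natDegree_map] at h2
    _ = (minpoly K a).natDegree := by
        rw [minpoly.algHom_eq e e.toRingHom.injective]
    _ = Module.finrank K K⟮a⟯ := (IntermediateField.adjoin.finrank hia).symm
    _ = Module.finrank K (IntermediateField.adjoin K {x, y}) := by rw [hadj]

end LEH
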