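import Mathlib
import Pool.Agent.Work.MP_022f22_nt.LH.Abs

/-!
# Heights under embeddings and affine changes of the coordinate
-/

open NumberField Height IntermediateField

namespace LEH

theorem abs_embed {F F' : Type*} [Field F] [CharZero F] [Field F'] [CharZero F'] (e : F →+* F')
    (x : F) (hx : IsIntegral ℚ x) :
    NumberField.absLogHeight₁ (e x) = NumberField.absLogHeight₁ x := by
  haveI : FiniteDimensional ℚ ℚ⟮x⟯ := IntermediateField.adjoin.finiteDimensional hx
  haveI : NumberField ℚ⟮x⟯ := {}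
  have h1 := absLogHeight_eq (L := ℚ⟮x⟯) (F := F) (AdjoinSimple.gen ℚ x)
  letI : Algebra ℚ⟮x⟯ F' := (e.comp (algebraMap ℚ⟮x⟯ F)).toAlgebra
  have h2 := absLogHeight_eq (L := ℚ⟮x⟯) (F := F') (AdjoinSimple.gen ℚ x)
  have h3 : algebraMap ℚ⟮x⟯ F (AdjoinSimple.gen ℚ x) = x := rfl
  have h4 : algebraMap ℚ⟮x⟯ F' (AdjoinSimple.gen ℚ x) = e x := rfl
  rw [h3] at h1
  rw [h4] at h2
  rw [h1, h2]

theorem ht_affine {L : Type*} [Field L] [NumberField L] (u r : L) (hu : u ≠ 0) :
    ∃ c : ℝ, 0 ≤ c ∧ ∀ x : L, |logHeight₁ (u * x + r) - logHeight₁ x| ≤ c := by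
  refine ⟨totalWeight L * Real.log 2 + logHeight₁ u + logHeight₁ r, ?_, fun x => ?_⟩
  · have h1 := zero_le_logHeight₁ u
    have h2 := zero_le_logHeight₁ r
    have h3 : 0 ≤ Real.log 2 := Real.log_nonneg (by norm_num)
    positivity
  · have h1 : logHeight₁ (u * x + r) ≤
        totalWeight L * Real.log 2 + logHeight₁ (u * x) + logHeight₁ r := logHeight₁_add_le _ _
    have h2 := logHeight₁_mul_le u x
    have h3 : x = u⁻¹ * ((u * x + r) - r) := by
      field_simp
      ring
    have h4 := logHeight₁_mul_le u⁻¹ ((u * x + r) - r)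
    rw [← h3, logHeight₁_inv] at h4
    have h5 := logHeight₁_sub_le (u * x + r) r
    rw [abs_le]
    constructor <;> linarith

end LEH
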