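import Mathlib

/-!
# Change of variables on points of Weierstrass curves
-/

namespace LEH

open WeierstrassCurve WeierstrassCurve.Affine

variable {F : Type*} [Field F]

theorem vc_eq (W : WeierstrassCurve F) (C : VariableChange F) (x y : F) :
    (C • W).toAffine.Equation x y ↔
      W.toAffine.Equation (C.u ^ 2 * x + C.r) (C.u ^ 3 * y + C.u ^ 2 * C.s * x + C.t) := by
  have hu : (C.u : F) ≠ 0 := C.u.ne_zero
  rw [Affine.equation_iff', Affine.equation_iff']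
  simp only [variableChange_def, Units.val_inv_eq_inv_val]
  constructor
  · intro h
    have h6 : (C.u : F) ^ 6 ≠ 0 := pow_ne_zero _ hu
    field_simp at h
    linear_combination h
  · intro h
    field_simp
    linear_combination h

theorem vc_ns (W : WeierstrassCurve F) (C : VariableChange F) (x y : F) :
    (C • W).toAffine.Nonsingular x y ↔
      W.toAffine.Nonsingular (C.u ^ 2 * x + C.r) (C.u ^ 3 * y + C.u ^ 2 * C.s * x + C.t) := by
  have hu : (C.u : F) ≠ 0 := C.u.ne_zero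
  rw [Affine.nonsingular_iff', Affine.nonsingular_iff', vc_eq]
  refine and_congr_right fun _ => ?_
  set X : F := C.u ^ 2 * x + C.r with hX
  set Y : F := C.u ^ 3 * y + C.u ^ 2 * C.s * x + C.t with hY
  have h1 : (C.u : F) ^ 3 * (2 * y + (C • W).a₁ * x + (C • W).a₃) =
      2 * Y + W.a₁ * X + W.a₃ := by
    simp only [variableChange_def, Units.val_inv_eq_inv_val, hX, hY]
    field_simp
    ring
  have h2 : (C.u : F) ^ 4 * ((C • W).a₁ * y - (3 * x ^ 2 + 2 * (C • W).a₂ * x + (C • W).a₄)) =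
      (W.a₁ * Y - (3 * X ^ 2 + 2 * W.a₂ * X + W.a₄)) + C.s * (2 * Y + W.a₁ * X + W.a₃) := by
    simp only [variableChange_def, Units.val_inv_eq_inv_val, hX, hY]
    field_simp
    ring
  have h3 : (C.u : F) ^ 3 ≠ 0 := pow_ne_zero _ hu
  have h4 : (C.u : F) ^ 4 ≠ 0 := pow_ne_zero _ hu
  constructor
  · intro h
    by_contra hcon
    push Not at hcon
    rcases h with h | h
    · apply h
      have h5 := h2
      rw [hcon.1, hcon.2, mul_zero, add_zero] at h5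
      exact (mul_eq_zero.1 h5).resolve_left h4
    · apply h
      have h5 := h1
      rw [hcon.2] at h5
      exact (mul_eq_zero.1 h5).resolve_left h3
  · intro h
    by_contra hcon
    push Not at hcon
    rw [hcon.2, mul_zero] at h1
    rw [hcon.1, ← h1, mul_zero, mul_zero, add_zero] at h2
    rcases h with h | h
    · exact h h2.symm
    · exact h h1.symm

/-- the point of `W` with coordinates `(u²x+r, u³y+u²sx+t)` -/
def vcMap (W : WeierstrassCurve F) (C : VariableChange F) :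
    (C • W).toAffine.Point → W.toAffine.Point
  | .zero => .zero
  | .some x y h => .some (C.u ^ 2 * x + C.r) (C.u ^ 3 * y + C.u ^ 2 * C.s * x + C.t)
      ((vc_ns W C x y).1 h)

theorem vc_negY (W : WeierstrassCurve F) (C : VariableChange F) (x y : F) :
    W.toAffine.negY (C.u ^ 2 * x + C.r) (C.u ^ 3 * y + C.u ^ 2 * C.s * x + C.t) =
      C.u ^ 3 * (C • W).toAffine.negY x y + C.u ^ 2 * C.s * x + C.t := by
  have hu : (C.u : F) ≠ 0 := C.u.ne_zero
  simp only [Affine.negY, variableChange_def, Units.val_inv_eq_inv_val]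
  field_simp
  ring

open Classical in
theorem vc_slope (W : WeierstrassCurve F) (C : VariableChange F) {x₁ x₂ y₁ y₂ : F}
    (h₁ : (C • W).toAffine.Equation x₁ y₁) (h₂ : (C • W).toAffine.Equation x₂ y₂)
    (hxy : ¬(x₁ = x₂ ∧ y₁ = (C • W).toAffine.negY x₂ y₂)) :
    W.toAffine.slope (C.u ^ 2 * x₁ + C.r) (C.u ^ 2 * x₂ + C.r)
      (C.u ^ 3 * y₁ + C.u ^ 2 * C.s * x₁ + C.t) (C.u ^ 3 * y₂ + C.u ^ 2 * C.s * x₂ + C.t) =
      C.u * (C • W).toAffine.slope x₁ x₂ y₁ y₂ + C.s := by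
  have hu : (C.u : F) ≠ 0 := C.u.ne_zero
  have hu2 : (C.u : F) ^ 2 ≠ 0 := pow_ne_zero _ hu
  have hu3 : (C.u : F) ^ 3 ≠ 0 := pow_ne_zero _ hu
  by_cases hx : x₁ = x₂
  · subst hx
    have hy : y₁ ≠ (C • W).toAffine.negY x₁ y₂ := fun h => hxy ⟨rfl, h⟩
    have hyy : y₁ = y₂ := Affine.Y_eq_of_Y_ne h₁ h₂ rfl hy
    subst hyy
    have hY : C.u ^ 3 * y₁ + C.u ^ 2 * C.s * x₁ + C.t ≠
        W.toAffine.negY (C.u ^ 2 * x₁ + C.r) (C.u ^ 3 * y₁ + C.u ^ 2 * C.s * x₁ + C.t) := by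
      rw [vc_negY]
      intro h
      apply hy
      have h5 : (C.u : F) ^ 3 * (y₁ - (C • W).toAffine.negY x₁ y₁) = 0 := by
        linear_combination h
      exact sub_eq_zero.1 ((mul_eq_zero.1 h5).resolve_left hu3)
    rw [Affine.slope_of_Y_ne rfl hY, Affine.slope_of_Y_ne rfl hy, vc_negY]
    have h6 : y₁ - (C • W).toAffine.negY x₁ y₁ ≠ 0 := sub_ne_zero.2 hy
    have h7 : (C.u : F) ^ 3 * y₁ + C.u ^ 2 * C.s * x₁ + C.t -
        (C.u ^ 3 * (C • W).toAffine.negY x₁ y₁ + C.u ^ 2 * C.s * x₁ + C.t) =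
        C.u ^ 3 * (y₁ - (C • W).toAffine.negY x₁ y₁) := by ring
    rw [h7]
    rw [div_eq_iff (mul_ne_zero hu3 h6)]
    have h8 : (C.u * ((3 * x₁ ^ 2 + 2 * (C • W).a₂ * x₁ + (C • W).a₄ - (C • W).a₁ * y₁) /
        (y₁ - (C • W).toAffine.negY x₁ y₁)) + C.s) * (C.u ^ 3 * (y₁ - (C • W).toAffine.negY x₁ y₁))
        = C.u ^ 4 * (3 * x₁ ^ 2 + 2 * (C • W).a₂ * x₁ + (C • W).a₄ - (C • W).a₁ * y₁) +
          C.s * C.u ^ 3 * (y₁ - (C • W).toAffine.negY x₁ y₁) := by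
      field_simp
    rw [h8]
    simp only [Affine.negY, variableChange_def, Units.val_inv_eq_inv_val]
    field_simp
    ring
  · have hX : C.u ^ 2 * x₁ + C.r ≠ C.u ^ 2 * x₂ + C.r := by
      intro h
      apply hx
      have h5 : (C.u : F) ^ 2 * (x₁ - x₂) = 0 := by linear_combination h
      exact sub_eq_zero.1 ((mul_eq_zero.1 h5).resolve_left hu2)
    rw [Affine.slope_of_X_ne hX, Affine.slope_of_X_ne hx]
    have h6 : x₁ - x₂ ≠ 0 := sub_ne_zero.2 hx
    have h7 : (C.u : F) ^ 2 * x₁ + C.r - (C.u ^ 2 * x₂ + C.r) = C.u ^ 2 * (x₁ - x₂) := by ring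
    rw [h7]
    field_simp
    ring

open Classical in
theorem vcMap_add (W : WeierstrassCurve F) (C : VariableChange F)
    (P Q : (C • W).toAffine.Point) : vcMap W C (P + Q) = vcMap W C P + vcMap W C Q := by
  have hu : (C.u : F) ≠ 0 := C.u.ne_zero
  have hu2 : (C.u : F) ^ 2 ≠ 0 := pow_ne_zero _ hu
  have hu3 : (C.u : F) ^ 3 ≠ 0 := pow_ne_zero _ hu
  have h0 : vcMap W C 0 = 0 := rfl
  rcases P with _ | ⟨x₁, y₁, h₁⟩
  · change vcMap W C (0 + Q) = vcMap W C 0 + vcMap W C Q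
    rw [zero_add, h0, zero_add]
  rcases Q with _ | ⟨x₂, y₂, h₂⟩
  · change vcMap W C (_ + 0) = _ + vcMap W C 0
    rw [add_zero, h0, add_zero]
  have hs1 : ∀ (x y : F) (h : (C • W).toAffine.Nonsingular x y), vcMap W C (.some x y h) =
    .some (C.u ^ 2 * x + C.r) (C.u ^ 3 * y + C.u ^ 2 * C.s * x + C.t)
      ((vc_ns W C x y).1 h) := fun _ _ _ => rfl
  by_cases hxy : x₁ = x₂ ∧ y₁ = (C • W).toAffine.negY x₂ y₂
  · obtain ⟨hx, hy⟩ := hxy
    rw [Point.add_of_Y_eq hx hy, h0, hs1, hs1, Point.add_of_Y_eq (by rw [hx])]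
    rw [vc_negY, ← hy, hx]
  · have hXY : ¬(C.u ^ 2 * x₁ + C.r = C.u ^ 2 * x₂ + C.r ∧
        C.u ^ 3 * y₁ + C.u ^ 2 * C.s * x₁ + C.t = W.toAffine.negY (C.u ^ 2 * x₂ + C.r)
          (C.u ^ 3 * y₂ + C.u ^ 2 * C.s * x₂ + C.t)) := by
      rintro ⟨ha, hb⟩
      have h5 : (C.u : F) ^ 2 * (x₁ - x₂) = 0 := by linear_combination ha
      have h6 := sub_eq_zero.1 ((mul_eq_zero.1 h5).resolve_left hu2)
      apply hxy
      refine ⟨h6, ?_⟩
      rw [vc_negY, h6] at hb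
      have h7 : (C.u : F) ^ 3 * (y₁ - (C • W).toAffine.negY x₂ y₂) = 0 := by
        linear_combination hb
      exact sub_eq_zero.1 ((mul_eq_zero.1 h7).resolve_left hu3)
    rw [Point.add_some hxy, hs1, hs1, hs1, Point.add_some hXY]
    have hsl := vc_slope W C h₁.1 h₂.1 hxy
    have hX : C.u ^ 2 * (C • W).toAffine.addX x₁ x₂ ((C • W).toAffine.slope x₁ x₂ y₁ y₂) + C.r =
        W.toAffine.addX (C.u ^ 2 * x₁ + C.r) (C.u ^ 2 * x₂ + C.r)
          (W.toAffine.slope (C.u ^ 2 * x₁ + C.r) (C.u ^ 2 * x₂ + C.r)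
            (C.u ^ 3 * y₁ + C.u ^ 2 * C.s * x₁ + C.t)
            (C.u ^ 3 * y₂ + C.u ^ 2 * C.s * x₂ + C.t)) := by
      rw [hsl]
      simp only [Affine.addX, variableChange_def, Units.val_inv_eq_inv_val]
      field_simp
      ring
    have hY : C.u ^ 3 * (C • W).toAffine.addY x₁ x₂ y₁ ((C • W).toAffine.slope x₁ x₂ y₁ y₂) +
        C.u ^ 2 * C.s * (C • W).toAffine.addX x₁ x₂ ((C • W).toAffine.slope x₁ x₂ y₁ y₂) + C.t =
        W.toAffine.addY (C.u ^ 2 * x₁ + C.r) (C.u ^ 2 * x₂ + C.r)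
            (C.u ^ 3 * y₁ + C.u ^ 2 * C.s * x₁ + C.t)
          (W.toAffine.slope (C.u ^ 2 * x₁ + C.r) (C.u ^ 2 * x₂ + C.r)
            (C.u ^ 3 * y₁ + C.u ^ 2 * C.s * x₁ + C.t)
            (C.u ^ 3 * y₂ + C.u ^ 2 * C.s * x₂ + C.t)) := by
      rw [hsl]
      simp only [Affine.addY, Affine.negAddY, Affine.negY, Affine.addX, variableChange_def,
        Units.val_inv_eq_inv_val]
      field_simp
      ring
    simp only [Point.some.injEq]
    exact ⟨hX, hY⟩

end LEH
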