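import Mathlib
import Pool.Agent.Work.MP_022f22_nt.LH.FinDefs
import Pool.Agent.Work.MP_022f22_nt.LH.Abs
import Pool.Agent.Work.MP_022f22_nt.LH.Nrm
import Pool.Agent.Work.MP_022f22_nt.PG.Vc
import Pool.Agent.Work.MP_022f22_nt.PG.Ht
import Pool.Agent.Work.MP_022f22_nt.PG.Dg

/-!
# Points over an extension of the base field, for an isomorphic Weierstrass equation
-/

open NumberField Height IntermediateField Filter Topology

namespace LEH

open WeierstrassCurve WeierstrassCurve.Affine

open Classical in
theorem vc_trans {F : Type*} [Field F] (V V' : WeierstrassCurve F) (C : VariableChange F)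
    (h : C • V = V') : ∃ g : V'.toAffine.Point →+ V.toAffine.Point,
      Function.Surjective g ∧ Function.Injective g ∧
      ∀ x y hxy, ∃ hxy', g (.some x y hxy) =
        .some (C.u ^ 2 * x + C.r) (C.u ^ 3 * y + C.u ^ 2 * C.s * x + C.t) hxy' := by
  subst h
  have hu : (C.u : F) ≠ 0 := C.u.ne_zero
  let g : (C • V).toAffine.Point →+ V.toAffine.Point :=
    { toFun := vcMap V C
      map_zero' := rfl
      map_add' := vcMap_add V C }
  have hg : ∀ x y hxy, g (.some x y hxy) =
      .some (C.u ^ 2 * x + C.r) (C.u ^ 3 * y + C.u ^ 2 * C.s * x + C.t)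
        ((vc_ns V C x y).1 hxy) := fun _ _ _ => rfl
  refine ⟨g, ?_, ?_, fun x y hxy => ⟨_, hg x y hxy⟩⟩
  · intro Q
    rcases Q with _ | ⟨X, Y, hXY⟩
    · exact ⟨0, rfl⟩
    · set x : F := (X - C.r) / C.u ^ 2 with hx
      set y : F := (Y - C.u ^ 2 * C.s * x - C.t) / C.u ^ 3 with hy
      have h1 : C.u ^ 2 * x + C.r = X := by
        rw [hx]
        field_simp
        ring
      have h2 : C.u ^ 3 * y + C.u ^ 2 * C.s * x + C.t = Y := by
        rw [hy]
        field_simp
        ring
      have h3 : (C • V).toAffine.Nonsingular x y := by
        rw [vc_ns, h1, h2]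
        exact hXY
      refine ⟨.some x y h3, ?_⟩
      rw [hg]
      simp only [Point.some.injEq]
      exact ⟨h1, h2⟩
  · rw [injective_iff_map_eq_zero]
    intro Q hQ
    rcases Q with _ | ⟨x, y, hxy⟩
    · rfl
    · rw [hg] at hQ
      exact absurd hQ (Point.some_ne_zero _)

open Classical in
theorem transport {K K' : Type} [Field K] [NumberField K] [Field K'] [NumberField K']
    [Algebra K K'] (E : WeierstrassCurve K) (C : VariableChange K')
    (P : (E.baseChange (AlgebraicClosure K)).toAffine.Point) (hP : InfOrder P) :
    ∃ P' : ((C • (E.baseChange K')).baseChange (AlgebraicClosure K')).toAffine.Point,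
      InfOrder P' ∧ ptDegree K' P' ≤ ptDegree K P ∧
      ∃ c : ℝ, ∀ n : ℕ, |naiveHeight (2 ^ n • P') - naiveHeight (2 ^ n • P)| ≤ c := by
  let e : AlgebraicClosure K →ₐ[K] AlgebraicClosure K' := IsAlgClosed.lift
  let Q := WeierstrassCurve.Affine.Point.map (W' := E) e P
  have hE : (C.map (algebraMap K' (AlgebraicClosure K'))) •
      (E.baseChange (AlgebraicClosure K')) =
      (C • (E.baseChange K')).baseChange (AlgebraicClosure K') := by
    have h1 : E.baseChange (AlgebraicClosure K') =
        (E.baseChange K').map (algebraMap K' (AlgebraicClosure K')) := by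
      rw [WeierstrassCurve.baseChange, WeierstrassCurve.baseChange, WeierstrassCurve.map_map,
        ← IsScalarTower.algebraMap_eq]
    rw [h1, WeierstrassCurve.map_variableChange]
    rfl
  obtain ⟨g, hgs, hgi, hg⟩ := vc_trans _ _ _ hE
  obtain ⟨P', hP'⟩ := hgs Q
  have hmul : ∀ n : ℕ, g (n • P') = WeierstrassCurve.Affine.Point.map (W' := E) e (n • P) := by
    intro n
    rw [map_nsmul, map_nsmul, hP']
  refine ⟨P', ?_, ?_, ?_⟩
  · intro n hn h0
    apply hP n hn
    have h1 := hmul n
    rw [h0, map_zero] at h1
    exact WeierstrassCurve.Affine.Point.map_injective e (h1.symm.trans (map_zero _).symm)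
  · rcases P with _ | ⟨X, Y, hXY⟩
    · have h0 : P' = 0 := by
        apply hgi
        rw [hP', map_zero]
        exact map_zero _
      rw [h0]
      exact le_rfl
    · rcases P' with _ | ⟨x, y, hxy⟩
      · exfalso
        have h1 : g 0 = Q := hP'
        rw [map_zero] at h1
        have h2 : Q = .some (e X) (e Y) _ := WeierstrassCurve.Affine.Point.map_some e hXY
        rw [h2] at h1
        exact Point.some_ne_zero _ h1.symm
      · obtain ⟨hxy', h1⟩ := hg x y hxy
        rw [hP'] at h1
        have h2 : Q = .some (e X) (e Y) _ := WeierstrassCurve.Affine.Point.map_some e hXY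
        rw [h2] at h1
        simp only [Point.some.injEq] at h1
        obtain ⟨hx, hy⟩ := h1
        change Module.finrank K' (IntermediateField.adjoin K' {x, y}) ≤
          Module.finrank K (IntermediateField.adjoin K {X, Y})
        set M := IntermediateField.adjoin K' {e X, e Y} with hM
        have hXM : e X ∈ M := IntermediateField.subset_adjoin K' _ (by simp)
        have hYM : e Y ∈ M := IntermediateField.subset_adjoin K' _ (by simp)
        have hu : algebraMap K' (AlgebraicClosure K') (C.u : K') ≠ 0 :=
          (_root_.map_ne_zero _).2 C.u.ne_zero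
        have hu' : ((C.map (algebraMap K' (AlgebraicClosure K'))).u : AlgebraicClosure K') =
          algebraMap K' (AlgebraicClosure K') (C.u : K') := rfl
        have hr' : ((C.map (algebraMap K' (AlgebraicClosure K'))).r : AlgebraicClosure K') =
          algebraMap K' (AlgebraicClosure K') (C.r : K') := rfl
        have hs' : ((C.map (algebraMap K' (AlgebraicClosure K'))).s : AlgebraicClosure K') =
          algebraMap K' (AlgebraicClosure K') (C.s : K') := rfl
        have ht' : ((C.map (algebraMap K' (AlgebraicClosure K'))).t : AlgebraicClosure K') =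
          algebraMap K' (AlgebraicClosure K') (C.t : K') := rfl
        rw [hu', hr'] at hx
        rw [hu', hs', ht'] at hy
        have hx1 : x = (e X - algebraMap K' (AlgebraicClosure K') C.r) /
            algebraMap K' (AlgebraicClosure K') (C.u : K') ^ 2 := by
          rw [hx]
          field_simp
          ring
        have hxM : x ∈ M := by
          rw [hx1]
          exact div_mem (sub_mem hXM (M.algebraMap_mem _)) (pow_mem (M.algebraMap_mem _) 2)
        have hy1 : y = (e Y - algebraMap K' (AlgebraicClosure K') (C.u : K') ^ 2 *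
            algebraMap K' (AlgebraicClosure K') C.s * x - algebraMap K' (AlgebraicClosure K') C.t) /
            algebraMap K' (AlgebraicClosure K') (C.u : K') ^ 3 := by
          rw [hy]
          field_simp
          ring
        have hyM : y ∈ M := by
          rw [hy1]
          exact div_mem (sub_mem (sub_mem hYM (mul_mem (mul_mem (pow_mem (M.algebraMap_mem _) 2)
            (M.algebraMap_mem _)) hxM)) (M.algebraMap_mem _)) (pow_mem (M.algebraMap_mem _) 3)
        exact deg_embed e X Y x y hxM hyM
  · obtain ⟨L, hfin, hgal, P'', hP''⟩ := exists_descent (C • (E.baseChange K')) P'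
    have : NumberField L := NumberField.of_module_finite K' L
    obtain ⟨c, hc, hcL⟩ := ht_affine (L := L) (algebraMap K' L ((C.u : K') ^ 2))
      (algebraMap K' L C.r) ((_root_.map_ne_zero _).2 (pow_ne_zero 2 C.u.ne_zero))
    refine ⟨c / (Module.finrank ℚ L : ℝ), fun n => ?_⟩
    have hLpos : (0 : ℝ) < Module.finrank ℚ L := by
      exact_mod_cast Module.finrank_pos
    have h1 : 2 ^ n • P' = WeierstrassCurve.Affine.Point.map (W' := C • (E.baseChange K'))
        L.val (2 ^ n • P'') := by
      rw [map_nsmul, hP'']
    have h2 := hmul (2 ^ n)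
    rw [h1] at h2 ⊢
    generalize hR : 2 ^ n • P'' = R at h1 h2 ⊢
    generalize hS : 2 ^ n • P = S at h2 ⊢
    rcases R with _ | ⟨x, y, hxy⟩
    · have h3 : WeierstrassCurve.Affine.Point.map (W' := C • (E.baseChange K')) L.val
          Point.zero = 0 := map_zero _
      rw [h3, map_zero] at h2
      have h4 : S = 0 :=
        WeierstrassCurve.Affine.Point.map_injective e (h2.symm.trans (map_zero _).symm)
      rw [h3, h4]
      change |(0 : ℝ) - 0| ≤ _
      rw [sub_zero, abs_zero]
      positivity
    · generalize hT : WeierstrassCurve.Affine.Point.map (W' := C • (E.baseChange K'))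
        L.val (Point.some x y hxy) = T at h2 ⊢
      rw [WeierstrassCurve.Affine.Point.map_some] at hT
      rcases T with _ | ⟨x', y', pf⟩
      · exact absurd hT (Point.some_ne_zero _)
      simp only [Point.some.injEq] at hT
      obtain ⟨hx', -⟩ := hT
      obtain ⟨hxy', h3⟩ := hg x' y' pf
      rw [h3] at h2
      rcases S with _ | ⟨X, Y, hXY⟩
      · exfalso
        have h4 : WeierstrassCurve.Affine.Point.map (W' := E) e Point.zero = 0 := map_zero _
        rw [h4] at h2
        exact Point.some_ne_zero _ h2
      · rw [WeierstrassCurve.Affine.Point.map_some] at h2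
        simp only [Point.some.injEq] at h2
        have hX := h2.1
        change |NumberField.absLogHeight₁ x' - NumberField.absLogHeight₁ X| ≤ _
        have hXi : IsIntegral ℚ X := by
          have h5 : IsIntegral K X := Algebra.IsIntegral.isIntegral X
          exact isIntegral_trans (R := ℚ) (A := K) X h5
        have h6 := abs_embed (e : AlgebraicClosure K →+* AlgebraicClosure K') X hXi
        have h7 : (e : AlgebraicClosure K →+* AlgebraicClosure K') X =
            algebraMap L (AlgebraicClosure K') (algebraMap K' L ((C.u : K') ^ 2) * x +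
              algebraMap K' L C.r) := by
          change e X = _
          rw [← hX, ← hx', map_add, map_mul, map_pow, map_pow]
          rfl
        have h8 : x' = algebraMap L (AlgebraicClosure K') x := hx'.symm
        rw [← h6, h7, h8, absLogHeight_eq, absLogHeight_eq, ← sub_div, abs_div,
          abs_of_pos hLpos, abs_sub_comm]
        exact div_le_div_of_nonneg_right (hcL x) hLpos.le

end LEH
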