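import Mathlib
import Pool.Agent.Work.MP_022f22_nt.LH.Fin
import Pool.Agent.Work.MP_022f22_nt.LH.Eps
import Pool.Agent.Work.MP_022f22_nt.EL.Out
import Pool.Agent.Work.MP_022f22_nt.PG.Tr

/-!
# Final theorem for curves with potentially good supersingular reduction
-/

open NumberField IsDedekindDomain Filter Topology

namespace LEH

theorem ptDegree_pos {K : Type} [Field K] [NumberField K] (E : WeierstrassCurve K)
    (P : (E.baseChange (AlgebraicClosure K)).toAffine.Point) : 1 ≤ ptDegree K P := by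
  rcases P with _ | ⟨x, y, h⟩
  · exact le_rfl
  · have : FiniteDimensional K (IntermediateField.adjoin K {x, y}) := by
      apply IntermediateField.finiteDimensional_adjoin
      intro z _
      exact Algebra.IsIntegral.isIntegral z
    change 1 ≤ Module.finrank K (IntermediateField.adjoin K {x, y})
    exact Module.finrank_pos

theorem pot_of_conj {K : Type} [Field K] [NumberField K] (E : WeierstrassCurve K) (hE : E.Δ ≠ 0)
    (σ : K →+* ℂ) (hσ : (σ (E.c₄ ^ 3 / E.Δ)).im = 0) : PotSupersingular E := by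
  obtain ⟨v, W, hW, hu, hss⟩ := Pool.Agent.SS.EL.elkies_out_conj σ E hE hσ
  refine ⟨K, inferInstance, inferInstance, Algebra.id K, v, 1, W, ?_, hu, hss⟩
  rw [one_smul, hW]
  exact (WeierstrassCurve.map_id E).symm

open Classical in
theorem lehmer_pot {K : Type} [Field K] [NumberField K] (E : WeierstrassCurve K)
    (h : PotSupersingular E) :
    ∃ C : ℝ, 0 < C ∧ ∀ P : (E.baseChange (AlgebraicClosure K)).toAffine.Point, InfOrder P →
      Tendsto (fun n : ℕ => naiveHeight (2 ^ n • P) / 4 ^ n) atTop (𝓝 (canonicalHeight P)) ∧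
      Real.exp (-(C * loss (ptDegree K P))) / (ptDegree K P : ℝ) ≤ canonicalHeight P := by
  obtain ⟨K', _, _, _, v, C0, W, hW, hu, hss⟩ := h
  obtain ⟨N, Q, A, B, hs⟩ := exists_setup v W hu hss
  rw [hW] at hs
  obtain ⟨C, hC, H⟩ := lehmer_setup hs
  refine ⟨C, hC, fun P hP => ?_⟩
  obtain ⟨P', hP', hdeg, c, hc⟩ := transport E C0 P hP
  obtain ⟨ht, hb⟩ := H P' hP'
  have h4 : Tendsto (fun n : ℕ => (4 : ℝ) ^ n) atTop atTop :=
    tendsto_pow_atTop_atTop_of_one_lt (by norm_num)
  have hd : Tendsto (fun n : ℕ => (naiveHeight (2 ^ n • P') - naiveHeight (2 ^ n • P)) / 4 ^ n)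
      atTop (𝓝 0) := by
    have h5 : Tendsto (fun n : ℕ => c / (4 : ℝ) ^ n) atTop (𝓝 0) := h4.const_div_atTop c
    refine squeeze_zero_norm (fun n => ?_) h5
    rw [Real.norm_eq_abs, abs_div, abs_of_pos (show (0 : ℝ) < 4 ^ n by positivity)]
    exact div_le_div_of_nonneg_right (hc n) (by positivity)
  have ht2 : Tendsto (fun n : ℕ => naiveHeight (2 ^ n • P) / 4 ^ n) atTop
      (𝓝 (canonicalHeight P')) := by
    have h6 := ht.sub hd
    rw [sub_zero] at h6
    refine h6.congr fun n => ?_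
    ring
  have hcan : canonicalHeight P = canonicalHeight P' := ht2.limUnder_eq
  refine ⟨hcan ▸ ht2, ?_⟩
  rw [hcan]
  refine le_trans ?_ hb
  have h1 : 1 ≤ ptDegree K' P' := ptDegree_pos _ P'
  have hD0 : (0 : ℝ) < ptDegree K' P' := by exact_mod_cast h1
  apply div_le_div₀ (Real.exp_pos _).le _ hD0 (by exact_mod_cast hdeg)
  apply Real.exp_le_exp.2
  have := mul_le_mul_of_nonneg_left (loss_mono h1 hdeg) hC.le
  linarith

end LEH
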